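import Pool.Agent.H652.PV.SinFin

/-!
# MP_bbe012_lc: the domain of integration can be taken to be the whole space

The presentations of periods by explicit integrals (`Code`, `Adm`, `val`, `Pres`, `PAdm`, `pval`,
`AlgDecidable`) are those of the problem.

* `RatFn n P Q` says that `P`, `Q` are polynomials in `n` variables with integer coefficients, that `Q ≥ 1`
  everywhere, and that the rational function `P / Q` is absolutely integrable over `ℝ ^ n`. This is the
  special case of the presentations of the problem in which the domain `σ` is the whole space `ℝ ^ n` (no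
  inequalities) and the integrand has no poles.
* `Rcp n p` says that `p` is a polynomial in `n` variables with integer coefficients, that `p ≥ 1`
  everywhere, and that `1 / p` is integrable over `ℝ ^ n`. `RecForm x (n, p, q)` says that `Rcp n p`,
  `Rcp n q`, and `∫_{ℝ ^ n} dx / p (x) - ∫_{ℝ ^ n} dx / q (x) = x`.

1. Normal forms. Primitive recursive functions turn each explicit integral with the value `x` into
   * `(N, P, Q)` as above with `∫_{ℝ ^ N} P / Q = π ^ 2 x`;
   * `(N, p, q)` as above with `∫_{ℝ ^ N} dx / p (x) - ∫_{ℝ ^ N} dx / q (x) = (π ^ 5 / 2) x`.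

2. Many-one reductions. Primitive recursive functions turn each pair of presentations of complex periods
   `z`, `w` into such data with the values `π ^ 2 |z - w| ^ 2` and `(π ^ 5 / 2) |z - w| ^ 2`. So Q1, whether
   `z = w`, is the question whether `∫_{ℝ ^ N} P / Q = 0`, and it is the question whether

     `∫_{ℝ ^ N} dx / p (x) = ∫_{ℝ ^ N} dx / q (x)`.

3. Consequently equality of periods (Q1) is decidable if and only if one of these two equalities is
   decidable; and the order of (the real parts of) periods is decidable if and only if one of the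
   corresponding inequalities `≤` is decidable.

Proof. A real period is a difference of the volumes of two regions `F > 0`, `G > 0`; `|z - w| ^ 2` is a
real period by Fubini. For a real number `A ≠ 0` the integral over `(a, b) ∈ ℝ ^ 2`, `s = a ^ 2 + b ^ 2`, of

     `1 / (1 + (s - A) ^ 2) + A / (1 + A ^ 2 (1 + s) ^ 2)`

is `π ^ 2` if `A > 0`, and it is ZERO if `A < 0`: it is `π` times
`∫_{- A}^∞ dt / (1 + t ^ 2) + A ∫_1^∞ dv / (1 + A ^ 2 v ^ 2)`. The integral of the absolute value is at most a
constant times `1 + |A| ^ (- 1 / (2 d))` for `A > 0` and `|A| ^ (- 1 / (2 d))` for `A < 0`.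
With `A = F (x) ∏ (1 + x_i ^ 2) ^ (2 d)`, `d > deg F`, the function is integrable over `ℝ ^ (n + 2)`, since
`∫ |F| ^ (- 1 / (2 d)) ∏ 1 / (1 + x_i ^ 2) dx` is finite (induction on the number of the variables: in one
variable the integral is at most a constant times `|a| ^ (- 1 / (2 d))`, where `a` is the leading coefficient).

The numerator is removed as follows. For a real number `P`, with `s = a ^ 2 + b ^ 2 + c ^ 2 + d ^ 2`,

     `∫_{ℝ ^ 4} 1 / (1 + (s - P) ^ 2) ^ 2 = π ^ 2 ∫_0^∞ s ds / (1 + (s - P) ^ 2) ^ 2
        = π ^ 2 (1 / 2 + (π / 4) P + P arctan (P) / 2)`,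

and the difference of the values for `P` and `- P` is `(π ^ 3 / 2) P`. So `∫ P / Q` is, up to the factor
`π ^ 3 / 2`, the difference of the integrals over `ℝ ^ (n + 4)` of `1 / (Q W (1 + (s - P W) ^ 2) ^ 2)` and of
`1 / (Q W (1 + (s + P W) ^ 2) ^ 2)`, where `W = ∏ (1 + x_i ^ 2)` makes both integrals finite.
-/

set_option autoImplicit false
set_option synthInstance.maxSize 2000

namespace Pool.Agent.Results.MP_bbe012_lc.IntegralsOverSpace

open Pool.Agent.TH960.PE Pool.Agent.H652.PV MeasureTheory

theorem result :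
    (∃ R : Code → ℕ × Poly × Poly, Primrec R ∧ ∀ c, Adm c →
      RatFn (R c).1 (R c).2.1 (R c).2.2 ∧
        ∫ x : Fin (R c).1 → ℝ, pev (ext x) (R c).2.1 / pev (ext x) (R c).2.2 =
          Real.pi ^ 2 * val c) ∧
    (∃ R : Code → ℕ × Poly × Poly, Primrec R ∧ ∀ c, Adm c →
      RecForm (Real.pi ^ 5 / 2 * val c) (R c)) ∧
    (∃ R : Pres × Pres → ℕ × Poly × Poly, Primrec R ∧ ∀ p q, PAdm p → PAdm q →
      RatFn (R (p, q)).1 (R (p, q)).2.1 (R (p, q)).2.2 ∧
        ∫ x : Fin (R (p, q)).1 → ℝ, pev (ext x) (R (p, q)).2.1 / pev (ext x) (R (p, q)).2.2 =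
          Real.pi ^ 2 * ‖pval p - pval q‖ ^ 2) ∧
    (∃ R : Pres × Pres → ℕ × Poly × Poly, Primrec R ∧ ∀ p q, PAdm p → PAdm q →
      RecForm (Real.pi ^ 5 / 2 * ‖pval p - pval q‖ ^ 2) (R (p, q))) ∧
    List.TFAE [AlgDecidable (fun a b => a = b), SpaceDec (· = ·), RecDec (· = ·)] ∧
    List.TFAE [AlgDecidable (fun a b => a.re ≤ b.re), SpaceDec (· ≤ ·), RecDec (· ≤ ·)] :=
  ⟨Whole.space_normal, Single.single_normal, Recip.space_pair, Single.single_pair,
    Single.single_eq, Single.single_le⟩

end Pool.Agent.Results.MP_bbe012_lc.IntegralsOverSpace
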