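import Pool.Agent.H652.PV.PairQ

/-!
# MP_bbe012_lc: comparison of periods and preimages of balls under quadratic maps

The presentations of periods by explicit integrals (`Code`, `Adm`, `val`, `Pres`, `AlgDecidable`) are
those of the problem. For a polynomial `F` in `n` variables let `reg n F` be the region `F > 0` in `ℝ ^ n`;
`Fine n F` says that `F` has integer coefficients and that this region has finite volume, and `Fine4 n F`
says moreover that the degree of `F` is at most four. A list `Q` of `m` integer polynomials in `n` variables
is a map from `ℝ ^ n` to `ℝ ^ m`; let `ball n Q` be the preimage of the open unit ball of `ℝ ^ m`.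

Quadratic maps (and so regions of degree four) are universal, regions of degree three are decidable:

1. Q1 has a positive answer, that is, equality of periods is decidable, if and only if one of the following
   problems is decidable (all equivalent):
   * given two maps of degree at most TWO such that the preimages `B`, `B'` of the unit balls have finite
     volume: is `vol B = vol B'`? given one such map: is `B` bisected by the hyperplane `x_k = 0`? is the
     centre of mass of `B` on this hyperplane, i.e. `∫_B x_k = 0` (if `x_k` is integrable)?
   * the same three questions for the regions `F > 0` of finite volume, where the degree of `F` is at most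
     FOUR; this is more general: `B` is the region `1 - ∑ q ^ 2 > 0`.

2. In the same way the ORDER of (the real parts of) periods is decidable if and only if one of these
   problems with `≤` instead of `=` is decidable.

3. Below degree four all these problems are decidable, for `=` and for `≤`. Moreover, for integer
   polynomials `F`, `G` of degree at most THREE whose regions have finite volume and for integer polynomials
   `P`, `Q` of ANY degree it is decidable whether `∫_{F > 0} P = ∫_{G > 0} Q`, and whether
   `∫_{F > 0} P ≤ ∫_{G > 0} Q`. In particular, this holds for maps of degree one, i.e. for ellipsoids.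

4. Normal forms. Three primitive recursive functions turn each explicit integral with the value `x` into
   * integer polynomials `F`, `G` in the same variables with `x = vol (F > 0) - vol (G > 0)`;
   * ONE integer polynomial `F` with `x = 2 ∫_{F > 0} x_0`;
   * integer polynomials `F`, `G`, `H` of degree at most four in the same variables with
     `x = (vol (F > 0) - vol (G > 0)) / vol (H > 0)`, each of them of the form `1 - ∑ q ^ 2` with quadratic
     polynomials `q`, i.e. the regions are preimages of balls under quadratic maps.
   A fourth one turns each pair of presentations of complex periods `z`, `w` into data of the last kind with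
   the value `|z - w| ^ 2`; so Q1 is many-one reducible to equality of the volumes of two such regions.

Proof. (a) The conjunction of two inequalities `a > 0`, `b > 0` is replaced by one inequality with three more
variables, whose solutions have volume exactly one if `a, b > 0`, and none otherwise; regions on different
sides of a hyperplane are united by `- F G > 0`. So there is one polynomial `F`. (b) Let `F` have degree at
most `d`, `d` even. In the homogeneous coordinates `(s, c)`, `x = s / c`, put `A = c ^ d F (s / c)`. With a
variable `u` the number `u A` is evaluated by a tree: each node is a new variable `z` with the energy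
`K (z - ∑ y_j z_j) ^ 2`, where the `y_j` are the homogeneous coordinates and `z_j` the children. After a
unimodular substitution the value of the root is `u A + ⟨a, ζ⟩` with independent errors `ζ` and a vector `a`
whose norm depends only on the norm of `(s, c)`; so by rotation invariance the integral over the errors does
not depend on the point. The further energies `(1 - root) ^ 2`, `(κ u) ^ 2`, `K (u - w ^ 2 - w' ^ 2) ^ 2` (area
of discs!), `(1 - |(s, c)| ^ 2) ^ 2` and `(c p_j) ^ 2` make the integral over all new variables of the
indicator function of `E < 1 / 4` a constant times the indicator function of `F > 0`. Here `E` is a sum of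
squares of quadratic polynomials, and the quartic is `1 - 4 E`. For the hyperplane, a coordinate `y` with
`y ^ 2` about one has the sign of `u x_0 c ^ 2` for a second variable `u`. (c) If the degree is at most three
and the volume is finite, then the cubic part vanishes, and `F` is `r - ∑ d_i (x_i + l_i) ^ 2` in triangular
form or `- e - ∑ d_i l_i ^ 2`; an algorithm searches for such an identity. In the first case the triangular
substitution turns the integral of `P` into a combination of integrals of monomials over an ellipsoid.
-/

set_option autoImplicit false
set_option synthInstance.maxSize 2000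

namespace Pool.Agent.Results.MP_bbe012_lc.QuarticRegions

open Pool.Agent.TH960.PE Pool.Agent.H652.PV MeasureTheory

theorem result :
    List.TFAE [AlgDecidable (fun a b => a = b),
      VolDecM (· = ·) 2, HalfDecM (· = ·) 2, MomDecM (· = ·) 2,
      VolDec (· = ·) 4, HalfDec (· = ·) 4, MomDec (· = ·) 4] ∧
    List.TFAE [AlgDecidable (fun a b => a.re ≤ b.re),
      VolDecM (· ≤ ·) 2, HalfDecM (· ≤ ·) 2, MomDecM (· ≤ ·) 2,
      VolDec (· ≤ ·) 4, HalfDec (· ≤ ·) 4, MomDec (· ≤ ·) 4] ∧
    (VolDec (· = ·) 3 ∧ HalfDec (· = ·) 3 ∧ MomDec (· = ·) 3 ∧ IntDec (· = ·) 3) ∧
    (VolDec (· ≤ ·) 3 ∧ HalfDec (· ≤ ·) 3 ∧ MomDec (· ≤ ·) 3 ∧ IntDec (· ≤ ·) 3) ∧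
    (∃ R : Code → ℕ × Poly × Poly, Primrec R ∧ ∀ c, Adm c →
      Fine (R c).1 (R c).2.1 ∧ Fine (R c).1 (R c).2.2 ∧
        val c = (volume (reg (R c).1 (R c).2.1)).toReal -
          (volume (reg (R c).1 (R c).2.2)).toReal) ∧
    (∃ R : Code → ℕ × Poly, Primrec R ∧ ∀ c, Adm c →
      Fine ((R c).1 + 1) (R c).2 ∧
        IntegrableOn (fun x : Fin ((R c).1 + 1) → ℝ => x 0) (reg ((R c).1 + 1) (R c).2) ∧
        val c = 2 * ∫ x in reg ((R c).1 + 1) (R c).2, x 0) ∧
    (∃ R : Code → ℕ × Poly × Poly × Poly, Primrec R ∧ ∀ c, Adm c → QuotForm (val c) (R c)) ∧
    (∃ R : Pres × Pres → ℕ × Poly × Poly × Poly, Primrec R ∧ ∀ p q, PAdm p → PAdm q →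
      QuotForm (‖pval p - pval q‖ ^ 2) (R (p, q))) :=
  ⟨tfae_eq, tfae_le, ⟨UFin.volEq3, UFin.halfEq3, UFin.momEq3, UFin.intEq3⟩,
    ⟨UFin.volLe3, UFin.halfLe3, UFin.momLe3, UFin.intLe3⟩,
    normal_volumes, normal_moment, Pairs.quot_normal, Pairs.quot_pair⟩

end Pool.Agent.Results.MP_bbe012_lc.QuarticRegions
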